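import Pool.Agent.Helper12.MA.StD

/-!
# Project MA, module UCD: a good edge is impossible without double servers
-/

set_option autoImplicit false

namespace Pool.Agent.Helper53.MA

open Pool.Agent.Helper12.MA
open Pool.Agent.Helper51.AJ (IsMinor Planar Apex ExMinor Con Tch)
open Pool.Agent.Helper12.NK (rst Kc add cnt Pcy IsFace Cof plus)

variable {V : Type}

private theorem con_congr {G H : SimpleGraph V} {S : Set V}
    (h : ∀ a ∈ S, ∀ b ∈ S, (G.Adj a b ↔ H.Adj a b)) : Con G S ↔ Con H S := by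
  have e : G.induce S = H.induce S := by
    ext a b
    exact h a.1 a.2 b.1 b.2
  show (G.induce S).Connected ↔ (H.induce S).Connected
  rw [e]

private theorem kc_congr {k : ℕ} {G H : SimpleGraph V} {U : Set V}
    (h : ∀ a ∈ U, ∀ b ∈ U, (G.Adj a b ↔ H.Adj a b)) (hk : Kc k G U) : Kc k H U :=
  ⟨hk.1, fun X hX => (con_congr fun a ha b hb => h a ha.1 b hb.1).1 (hk.2 X hX)⟩

private theorem face_congr {G H : SimpleGraph V} {U F : Set V}
    (h : ∀ a ∈ U, ∀ b ∈ U, (G.Adj a b ↔ H.Adj a b)) (hf : IsFace G U F) : IsFace H U F := by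
  obtain ⟨m, c, ⟨h1, h2, h3, h4, h5⟩, h6⟩ := hf
  refine ⟨m, c, ⟨h1, h2, h3, ?_, ?_⟩, h6⟩
  · intro i j
    rw [← h (c i) (h3 ⟨i, rfl⟩) (c j) (h3 ⟨j, rfl⟩)]
    exact h4 i j
  · exact (con_congr fun a ha b hb => h a ha.1 b hb.1).1 h5

private theorem dl_comm (G : SimpleGraph V) (x y : V) : dl G y x = dl G x y := by
  ext a b
  show (G.Adj a b ∧ ¬ (a = y ∧ b = x) ∧ ¬ (a = x ∧ b = y)) ↔
    (G.Adj a b ∧ ¬ (a = x ∧ b = y) ∧ ¬ (a = y ∧ b = x))
  tauto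

private theorem compl_pair (x s : V) : ({s}ᶜ : Set V) \ {x} = {x, s}ᶜ := by
  ext a
  simp only [Set.mem_sdiff, Set.mem_compl_iff, Set.mem_singleton_iff, Set.mem_insert_iff, not_or]
  tauto

/-- The face of the vertices cofacial with `z`, in `P`. -/
private def SZ (G : SimpleGraph V) (s x y z : V) : Set V :=
  {t | t ≠ z ∧ Cof (dl G x y) {s}ᶜ z t}

/-- The alternative for the faces of `G` on `{z, s}ᶜ`, `z` one of `x`, `y`. -/
private theorem mrg_alt [Finite V] (hMRG : StMRG) (hBAS : StBAS) (G : SimpleGraph V) (s x y z : V)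
    (hbh : Bh G) (hP : Pn (dl G x y) {s}ᶜ) (hz : z = x ∨ z = y) (hzs : z ≠ s) (F : Set V)
    (hF : IsFace G {z, s}ᶜ F) : IsFace (dl G x y) {s}ᶜ F ∨ F = SZ G s x y z := by
  have hag : ∀ a ∈ ({z, s}ᶜ : Set V), ∀ b ∈ ({z, s}ᶜ : Set V),
      (G.Adj a b ↔ (dl G x y).Adj a b) := by
    intro a ha b hb
    have h1 : a ≠ z := fun h => ha (Or.inl h)
    have h2 : b ≠ z := fun h => hb (Or.inl h)
    show G.Adj a b ↔ (G.Adj a b ∧ ¬ (a = x ∧ b = y) ∧ ¬ (a = y ∧ b = x))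
    rcases hz with rfl | rfl <;> tauto
  have hk : Kc 3 (dl G x y) (({s}ᶜ : Set V) \ {z}) := by
    rw [compl_pair]
    exact kc_congr hag ((hBAS V G hbh).2.1 z s)
  have hzU : z ∈ ({s}ᶜ : Set V) := hzs
  obtain ⟨_, h2, _⟩ := hMRG V (dl G x y) {s}ᶜ z hP hzU hk
  have hF' : IsFace (dl G x y) (({s}ᶜ : Set V) \ {z}) F := by
    rw [compl_pair]
    exact face_congr hag hF
  rcases h2 F hF' with h | h
  · exact Or.inl h.1
  · exact Or.inr h

private theorem three_of_ncard [Finite V] {S : Set V} (h : 3 ≤ S.ncard) :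
    ∃ a b c, a ∈ S ∧ b ∈ S ∧ c ∈ S ∧ a ≠ b ∧ a ≠ c ∧ b ≠ c := by
  have h2 : 2 < S.ncard := by omega
  obtain ⟨a, ha, b, hb, c, hc, hab, hac, hbc⟩ := (Set.two_lt_ncard (Set.toFinite S)).1 h2
  exact ⟨a, b, c, ha, hb, hc, hab, hac, hbc⟩

theorem hUCD : StFNB → StMRG → StBAS → StTOR → StDGC → StCNT → StUCA → StUCB → StUCC → StUCD := by
  intro hFNB hMRG hBAS hTOR hDGC hCNT hUCA hUCB hUCC V _ G s x y hbh hxy hgood hs hno
  have hsx : s ≠ x := hs.1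
  have hsy : s ≠ y := hs.2.1
  have hP : Pn (dl G x y) {s}ᶜ := ⟨(hBAS V G hbh).2.2.2.2.1 s x y, hs.2.2⟩
  obtain ⟨f, Γ, hf, hinj⟩ := hCNT V G hbh hno s
  -- the servers of the edges at `s`
  have hUS : ∀ w, G.Adj s w → f w = x ∨ f w = y ∨ f w ∈ US G s x y := by
    intro w hw
    obtain ⟨h1, h2, h3, _, _, _⟩ := hf w hw
    by_contra hc
    simp only [not_or] at hc
    obtain ⟨c1, c2, c3⟩ := hc
    have hnc : ¬ (Cof (dl G x y) {s}ᶜ x (f w) ∧ Cof (dl G x y) {s}ᶜ y (f w)) :=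
      fun h => c3 ⟨c1, c2, h.1, h.2⟩
    have h3' : Planar (rst G {s, f w}ᶜ) := by
      rw [Set.pair_comm]
      exact h3
    rcases hTOR V G s x y (f w) hbh hxy hs h1 c1 c2 h3' hnc (fun a b L R hS => hgood _ L R hS)
      with hD | hD
    · obtain ⟨p, q, r, r', hD'⟩ := hDGC V G s x y (f w) hbh hxy hs hD
      exact hno _ _ _ _ _ _ hD'
    · have hs' : Srv G s y x := ⟨hs.2.1, hs.1, by rw [dl_comm]; exact hs.2.2⟩
      obtain ⟨p, q, r, r', hD'⟩ := hDGC V G s y x (f w) hbh hxy.symm hs' hD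
      exact hno _ _ _ _ _ _ hD'
  have h5 : 5 ≤ {a | G.Adj s a}.ncard := (hBAS V G hbh).2.2.2.1 s
  have hU3 : 3 ≤ (US G s x y).ncard := by
    have h6 : (f '' {a | G.Adj s a}).ncard = {a | G.Adj s a}.ncard :=
      Set.ncard_image_of_injOn (fun a ha b hb hab => hinj a b ha hb hab)
    have h7 : f '' {a | G.Adj s a} ⊆ {x, y} ∪ US G s x y := by
      rintro _ ⟨w, hw, rfl⟩
      rcases hUS w hw with h | h | h
      · exact Or.inl (Or.inl h)
      · exact Or.inl (Or.inr h)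
      · exact Or.inr h
    have h8 := Set.ncard_le_ncard h7 (Set.toFinite _)
    have h9 := Set.ncard_union_le ({x, y} : Set V) (US G s x y)
    have h10 : ({x, y} : Set V).ncard ≤ 2 := by
      have := Set.ncard_insert_le x ({y} : Set V)
      rw [Set.ncard_singleton] at this
      exact this
    omega
  obtain ⟨D₁, D₂, u₁, u₁', u₂, u₂', hB1, hB2, hdis⟩ := hUCA V G s x y hbh hxy hs hno hU3
  -- neighbours of `s` in the two components
  have hs1 : s ∈ Nb G D₁ := by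
    rw [hB1.nb]
    exact Or.inr (Or.inr (Or.inl rfl))
  have hs2 : s ∈ Nb G D₂ := by
    rw [hB2.nb]
    exact Or.inr (Or.inr (Or.inl rfl))
  obtain ⟨_, w₁, hw1, hw1s⟩ := hs1
  obtain ⟨_, w₂, hw2, hw2s⟩ := hs2
  have hw1c := hB1.sub hw1
  have hw2c := hB2.sub hw2
  have hw1x : w₁ ≠ x := fun h => hw1c (Or.inl (Or.inr (Or.inl h)))
  have hw1y : w₁ ≠ y := fun h => hw1c (Or.inl (Or.inr (Or.inr h)))
  have hw2x : w₂ ≠ x := fun h => hw2c (Or.inl (Or.inr (Or.inl h)))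
  have hw2y : w₂ ≠ y := fun h => hw2c (Or.inl (Or.inr (Or.inr h)))
  have hw1U : w₁ ∉ US G s x y := fun h => hw1c (Or.inr h)
  have hw2U : w₂ ∉ US G s x y := fun h => hw2c (Or.inr h)
  have hw12 : w₁ ≠ w₂ := fun h => Set.disjoint_left.1 hdis hw1 (h ▸ hw2)
  have hnadj : ¬ G.Adj w₁ w₂ := by
    intro h
    have h1 : w₂ ∈ Nb G D₁ := ⟨fun h' => Set.disjoint_left.1 hdis h' hw2, w₁, hw1, h⟩
    rw [hB1.nb] at h1
    rcases h1 with h1 | h1 | h1 | h1 | h1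
    · exact hw2x h1
    · exact hw2y h1
    · exact hw2c (Or.inl (Or.inl h1))
    · exact hw2U (h1 ▸ hB1.mu)
    · exact hw2U (h1 ▸ hB1.mu')
  have hnadjP : ¬ (dl G x y).Adj w₁ w₂ := fun h => hnadj h.1
  -- the faces contain `w₁`, `w₂`
  have hmem : ∀ w, G.Adj s w → w ≠ w₁ → w ≠ w₂ → w₁ ∈ Γ w ∧ w₂ ∈ Γ w := by
    intro w hw h1 h2
    obtain ⟨_, _, _, _, h6, _⟩ := hf w hw
    have h7 := hUS w hw
    refine ⟨h6 ⟨hw1s.symm, ?_⟩, h6 ⟨hw2s.symm, ?_⟩⟩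
    · rintro (h | h)
      · exact h1 h.symm
      · rw [← h] at h7
        rcases h7 with h7 | h7 | h7
        · exact hw1x h7
        · exact hw1y h7
        · exact hw1U h7
    · rintro (h | h)
      · exact h2 h.symm
      · rw [← h] at h7
        rcases h7 with h7 | h7 | h7
        · exact hw2x h7
        · exact hw2y h7
        · exact hw2U h7
  -- the types
  have htype : ∀ w, G.Adj s w → w ≠ w₁ → w ≠ w₂ →
      (f w = x ∧ Γ w = SZ G s x y x) ∨ (f w = y ∧ Γ w = SZ G s x y y) ∨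
        IsFace (dl G x y) {s}ᶜ (Γ w) := by
    intro w hw h1 h2
    obtain ⟨_, _, _, h4, _, _⟩ := hf w hw
    obtain ⟨hm1, hm2⟩ := hmem w hw h1 h2
    rcases hUS w hw with h | h | h
    · rw [h] at h4
      rcases mrg_alt hMRG hBAS G s x y x hbh hP (Or.inl rfl) hsx.symm _ h4 with h' | h'
      · exact Or.inr (Or.inr h')
      · exact Or.inl ⟨h, h'⟩
    · rw [h] at h4
      rcases mrg_alt hMRG hBAS G s x y y hbh hP (Or.inr rfl) hsy.symm _ h4 with h' | h'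
      · exact Or.inr (Or.inr h')
      · exact Or.inr (Or.inl ⟨h, h'⟩)
    · exact Or.inr (Or.inr (hUCC V G s x y D₁ D₂ (Γ w) u₁ u₁' u₂ u₂' w₁ w₂ (f w) hbh hxy hs hB1 hB2
        hdis h h4 hw1 hm1 hw2 hm2))
  -- `w₁` is not cofacial with both `x` and `y`
  have hnot : ¬ (Cof (dl G x y) {s}ᶜ x w₁ ∧ Cof (dl G x y) {s}ᶜ y w₁) :=
    fun h => hw1U ⟨hw1x, hw1y, h.1, h.2⟩
  -- two of face type
  have htwo : ∀ w w', G.Adj s w → G.Adj s w' → w ≠ w₁ → w ≠ w₂ → w' ≠ w₁ → w' ≠ w₂ → w ≠ w' →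
      IsFace (dl G x y) {s}ᶜ (Γ w) → IsFace (dl G x y) {s}ᶜ (Γ w') → Γ w = Γ w' ∧ w' = f w := by
    intro w w' hw hw' h1 h2 h1' h2' hne hF hF'
    have hE : Γ w = Γ w' := (hFNB V (dl G x y) {s}ᶜ hP).2.2.2.1 _ _ hF hF' w₁ w₂ (hmem w hw h1 h2).1
      (hmem w hw h1 h2).2 (hmem w' hw' h1' h2').1 (hmem w' hw' h1' h2').2 hw12 hnadjP
    refine ⟨hE, ?_⟩
    by_contra hc
    have h6 : w' ∈ Γ w := (hf w hw).2.2.2.2.1 ⟨hw', by
      rintro (h | h)
      · exact hne h.symm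
      · exact hc h⟩
    rw [hE] at h6
    exact (hf w' hw').2.2.2.2.2 h6
  -- the main case: one of type X (or Y)
  have key : ∀ z z', (z = x ∧ z' = y) ∨ (z = y ∧ z' = x) → ∀ w w' w'', G.Adj s w → G.Adj s w' →
      G.Adj s w'' → w ≠ w₁ → w ≠ w₂ → w' ≠ w₁ → w' ≠ w₂ → w'' ≠ w₁ → w'' ≠ w₂ →
      w ≠ w' → w ≠ w'' → w' ≠ w'' → f w = z → Γ w = SZ G s x y z → False := by
    intro z z' hz w w' w'' hw hw' hw'' h1 h2 h1' h2' h1'' h2'' n1 n2 n3 hfz hΓ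
    have hw1z : Cof (dl G x y) {s}ᶜ z w₁ := by
      have h := (hmem w hw h1 h2).1
      rw [hΓ] at h
      exact h.2
    have hnz' : ¬ Cof (dl G x y) {s}ᶜ z' w₁ := by
      intro h
      rcases hz with ⟨rfl, rfl⟩ | ⟨rfl, rfl⟩
      · exact hnot ⟨hw1z, h⟩
      · exact hnot ⟨h, hw1z⟩
    have hface : ∀ v, G.Adj s v → v ≠ w₁ → v ≠ w₂ → w ≠ v → IsFace (dl G x y) {s}ᶜ (Γ v) := by
      intro v hv k1 k2 hne
      have h3 : ∀ t, (t = x ∨ t = y) → f v = t → Γ v = SZ G s x y t → False := by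
        intro t ht hft hΓt
        have h4 : t = z ∨ t = z' := by
          rcases hz with ⟨rfl, rfl⟩ | ⟨rfl, rfl⟩
          · exact ht
          · exact ht.symm
        rcases h4 with rfl | rfl
        · exact hne (hinj w v hw hv (hfz.trans hft.symm))
        · have h5 := (hmem v hv k1 k2).1
          rw [hΓt] at h5
          exact hnz' h5.2
      rcases htype v hv k1 k2 with ⟨ha, hb⟩ | ⟨ha, hb⟩ | h
      · exact (h3 x (Or.inl rfl) ha hb).elim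
      · exact (h3 y (Or.inr rfl) ha hb).elim
      · exact h
    have hF' := hface w' hw' h1' h2' n1
    have hF'' := hface w'' hw'' h1'' h2'' n2
    obtain ⟨_, hfw'⟩ := htwo w' w'' hw' hw'' h1' h2' h1'' h2'' n3 hF' hF''
    have hwΓ : w ∈ Γ w' := (hf w' hw').2.2.2.2.1 ⟨hw, by
      rintro (h | h)
      · exact n1 h
      · exact n2 (h.trans hfw'.symm)⟩
    obtain ⟨hm1, hm2⟩ := hmem w' hw' h1' h2'
    have hzz : z ∈ Γ w' ∨ z' ∈ Γ w' := by
      have h := hUCB V G s x y D₁ D₂ (Γ w') u₁ u₁' u₂ u₂' w₁ w₂ hbh hxy hs hB1 hB2 hdis hF' hw1 hm1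
        hw2 hm2
      rcases hz with ⟨rfl, rfl⟩ | ⟨rfl, rfl⟩
      · exact h
      · exact h.symm
    rcases hzz with h | h
    · have h7 : w ∈ Γ w := by
        rw [hΓ]
        exact ⟨fun h' => (hf w hw).2.1 (hfz.trans h'.symm), Γ w', hF', h, hwΓ⟩
      exact (hf w hw).2.2.2.2.2 h7
    · exact hnz' ⟨Γ w', hF', h, hm1⟩
  -- three neighbours of `s`
  have h3 : 3 ≤ ({a | G.Adj s a} \ {w₁, w₂}).ncard := by
    have h6 := Set.le_ncard_sdiff ({w₁, w₂} : Set V) {a | G.Adj s a}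
    have h10 : ({w₁, w₂} : Set V).ncard ≤ 2 := by
      have := Set.ncard_insert_le w₁ ({w₂} : Set V)
      rw [Set.ncard_singleton] at this
      exact this
    omega
  obtain ⟨a, b, c, ⟨ha, ha'⟩, ⟨hb, hb'⟩, ⟨hc, hc'⟩, hab, hac, hbc⟩ := three_of_ncard h3
  have ha1 : a ≠ w₁ := fun h => ha' (Or.inl h)
  have ha2 : a ≠ w₂ := fun h => ha' (Or.inr h)
  have hb1 : b ≠ w₁ := fun h => hb' (Or.inl h)
  have hb2 : b ≠ w₂ := fun h => hb' (Or.inr h)
  have hc1 : c ≠ w₁ := fun h => hc' (Or.inl h)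
  have hc2 : c ≠ w₂ := fun h => hc' (Or.inr h)
  have hxy' : (x = x ∧ y = y) ∨ (x = y ∧ y = x) := Or.inl ⟨rfl, rfl⟩
  have hyx' : (y = x ∧ x = y) ∨ (y = y ∧ x = x) := Or.inr ⟨rfl, rfl⟩
  rcases htype a ha ha1 ha2 with ⟨p1, p2⟩ | ⟨p1, p2⟩ | p
  · exact key x y hxy' a b c ha hb hc ha1 ha2 hb1 hb2 hc1 hc2 hab hac hbc p1 p2
  · exact key y x hyx' a b c ha hb hc ha1 ha2 hb1 hb2 hc1 hc2 hab hac hbc p1 p2
  rcases htype b hb hb1 hb2 with ⟨q1, q2⟩ | ⟨q1, q2⟩ | q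
  · exact key x y hxy' b a c hb ha hc hb1 hb2 ha1 ha2 hc1 hc2 hab.symm hbc hac q1 q2
  · exact key y x hyx' b a c hb ha hc hb1 hb2 ha1 ha2 hc1 hc2 hab.symm hbc hac q1 q2
  rcases htype c hc hc1 hc2 with ⟨r1, r2⟩ | ⟨r1, r2⟩ | r
  · exact key x y hxy' c a b hc ha hb hc1 hc2 ha1 ha2 hb1 hb2 hac.symm hbc.symm hab r1 r2
  · exact key y x hyx' c a b hc ha hb hc1 hc2 ha1 ha2 hb1 hb2 hac.symm hbc.symm hab r1 r2
  have e1 := (htwo a b ha hb ha1 ha2 hb1 hb2 hab p q).2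
  have e2 := (htwo a c ha hc ha1 ha2 hc1 hc2 hac p r).2
  exact hbc (e1.trans e2.symm)

end Pool.Agent.Helper53.MA
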